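import Mathlib

set_option autoImplicit false

namespace Pool.Agent.Results.MP_c86f36_co.Cex

open Finset

/-- number of edges of `G` with both endpoints in `S` -/
noncomputable def eIn {n : ℕ} (G : SimpleGraph (Fin n)) (S : Finset (Fin n)) : ℕ :=
  {e ∈ G.edgeSet | ∀ v ∈ e, v ∈ S}.ncard

/-- least number of edges spanned by `n / 2` vertices of the Turan graph `T_{t-1}(n)` -/
noncomputable def b (t n : ℕ) : ℕ :=
  sInf {m | ∃ S : Finset (Fin n), S.card = n / 2 ∧ eIn (SimpleGraph.turanGraph n (t - 1)) S = m}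

/-- adjacency in the disjoint union of a 5-cycle and a 7-cycle -/
def cyc (u v : Fin 12) : Bool :=
  (u.val < 5 && v.val < 5 && (u.val + 1) % 5 == v.val) ||
  (5 ≤ u.val && 5 ≤ v.val && (u.val - 5 + 1) % 7 == v.val - 5)

def G : SimpleGraph (Fin 12) where
  Adj u v := u ≠ v ∧ cyc u v = false ∧ cyc v u = false
  symm := ⟨fun _ _ h => ⟨h.1.symm, h.2.2, h.2.1⟩⟩
  loopless := ⟨fun _ h => h.1 rfl⟩

instance : DecidableRel G.Adj := fun u v =>
  inferInstanceAs (Decidable (u ≠ v ∧ cyc u v = false ∧ cyc v u = false))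

lemma eIn_eq {n : ℕ} (H : SimpleGraph (Fin n)) [DecidableRel H.Adj] (S : Finset (Fin n)) :
    eIn H S = ((S ×ˢ S).filter (fun p => p.1 < p.2 ∧ H.Adj p.1 p.2)).card := by
  have e : {e ∈ H.edgeSet | ∀ v ∈ e, v ∈ S} =
      (fun p : Fin n × Fin n => s(p.1, p.2)) ''
        ((S ×ˢ S).filter (fun p => p.1 < p.2 ∧ H.Adj p.1 p.2) : Finset _) := by
    ext e
    induction e using Sym2.ind with
    | _ u v =>
      simp only [Set.mem_setOf_eq, SimpleGraph.mem_edgeSet, Sym2.mem_iff, forall_eq_or_imp,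
        forall_eq, coe_filter, mem_product, Set.mem_image, Sym2.eq_iff, Prod.exists]
      constructor
      · rintro ⟨h, hu, hv⟩
        rcases lt_or_gt_of_ne h.ne with l | l
        · exact ⟨u, v, ⟨⟨hu, hv⟩, l, h⟩, Or.inl ⟨rfl, rfl⟩⟩
        · exact ⟨v, u, ⟨⟨hv, hu⟩, l, h.symm⟩, Or.inr ⟨rfl, rfl⟩⟩
      · rintro ⟨x, y, ⟨⟨hx, hy⟩, _, h⟩, ⟨rfl, rfl⟩ | ⟨rfl, rfl⟩⟩
        · exact ⟨h, hx, hy⟩
        · exact ⟨h.symm, hy, hx⟩
  unfold eIn
  rw [e, Set.InjOn.ncard_image, Set.ncard_coe_finset]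
  rintro ⟨a, c⟩ h1 ⟨a', c'⟩ h2 h
  simp only [coe_filter, Set.mem_setOf_eq] at h1 h2
  have l1 := h1.2.1
  have l2 := h2.2.1
  simp only [Sym2.eq_iff] at h
  rcases h with ⟨rfl, rfl⟩ | ⟨rfl, rfl⟩
  · rfl
  · exact absurd l1 (not_lt.2 l2.le)

lemma key0 : ∀ b0 b1 b2 b3 b4 b5 b6 b7 b8 b9 b10 b11 : Bool,
    (∑ i : Fin 12, if ![b0, b1, b2, b3, b4, b5, b6, b7, b8, b9, b10, b11] i = true then 1 else 0)
      = 6 →
    9 < (∑ i : Fin 12, if ![b0, b1, b2, b3, b4, b5, b6, b7, b8, b9, b10, b11] i = true then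
      ∑ j : Fin 12, if ![b0, b1, b2, b3, b4, b5, b6, b7, b8, b9, b10, b11] j = true ∧
        i < j ∧ G.Adj i j then 1 else 0 else 0) ∧
    ∃ u, ![b0, b1, b2, b3, b4, b5, b6, b7, b8, b9, b10, b11] u = true ∧
      ∃ v, ![b0, b1, b2, b3, b4, b5, b6, b7, b8, b9, b10, b11] v = true ∧ u ≠ v ∧ ¬ G.Adj u v := by
  decide +kernel

lemma key (S : Finset (Fin 12)) (hS : S.card = 6) :
    9 < ((S ×ˢ S).filter (fun p => p.1 < p.2 ∧ G.Adj p.1 p.2)).card ∧
      ∃ u ∈ S, ∃ v ∈ S, u ≠ v ∧ ¬ G.Adj u v := by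
  have e : ![decide (0 ∈ S), decide (1 ∈ S), decide (2 ∈ S), decide (3 ∈ S), decide (4 ∈ S),
      decide (5 ∈ S), decide (6 ∈ S), decide (7 ∈ S), decide (8 ∈ S), decide (9 ∈ S),
      decide (10 ∈ S), decide (11 ∈ S)] = fun i : Fin 12 => decide (i ∈ S) := by
    funext i; fin_cases i <;> rfl
  have := key0 (decide (0 ∈ S)) (decide (1 ∈ S)) (decide (2 ∈ S)) (decide (3 ∈ S))
    (decide (4 ∈ S)) (decide (5 ∈ S)) (decide (6 ∈ S)) (decide (7 ∈ S)) (decide (8 ∈ S))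
    (decide (9 ∈ S)) (decide (10 ∈ S)) (decide (11 ∈ S))
  rw [e] at this
  simp only [decide_eq_true_eq] at this
  have h2 := this (by rw [← hS]; simp)
  refine ⟨?_, h2.2⟩
  convert h2.1 using 1
  rw [card_filter, sum_product, ← sum_filter, filter_mem_eq_inter, univ_inter]
  refine sum_congr rfl fun i _ => ?_
  simp only [ite_and]
  rw [← sum_filter (p := fun j => j ∈ S), filter_mem_eq_inter, univ_inter]

lemma b_le : b 6 12 ≤ 9 := by
  refine Nat.sInf_le ⟨{0, 5, 10, 1, 6, 11}, by decide, ?_⟩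
  rw [eIn_eq]
  decide

theorem result : ¬ ∀ t n : ℕ, 4 ≤ t → Even n → ∀ H : SimpleGraph (Fin n),
    (∀ S : Finset (Fin n), S.card = n / 2 → b t n < eIn H S) → ¬ H.CliqueFree t := by
  intro h
  refine h 6 12 (by norm_num) (by decide) G (fun S hS => ?_) fun S hS => ?_
  · rw [eIn_eq]
    exact b_le.trans_lt (key S hS).1
  · obtain ⟨u, hu, v, hv, huv, h'⟩ := (key S hS.card_eq).2
    exact h' (hS.isClique hu hv huv)

end Pool.Agent.Results.MP_c86f36_co.Cex
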